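import Pool.Agent.TH88.HT.Push

/-!
# The group of almost translations of a group and its action on finite subsets
-/

set_option autoImplicit false

namespace Pool.Agent.TH88.HT

open Finset Equiv Pointwise

/-- The permutations of the set `F` which agree with a left translation outside a finite set. -/
def AlmostTrans (F : Type) [Group F] : Subgroup (Perm F) where
  carrier := {p | ∃ h : F, {x | p x ≠ h * x}.Finite}
  one_mem' := ⟨1, by simp⟩
  mul_mem' := by
    rintro p q ⟨h, hp⟩ ⟨k, hq⟩
    refine ⟨h * k, ?_⟩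
    refine (hq.union (hp.preimage (f := fun x => k * x)
      (fun x _ y _ hxy => mul_left_cancel hxy))).subset ?_
    intro x hx
    by_contra hc
    simp only [Set.mem_union, Set.mem_ofPred_eq, Set.mem_preimage, not_or, not_not] at hc
    apply hx
    rw [Perm.mul_apply, hc.1, hc.2, mul_assoc]
  inv_mem' := by
    rintro p ⟨h, hp⟩
    refine ⟨h⁻¹, ?_⟩
    refine (hp.preimage (f := fun x => p⁻¹ x) (fun x _ y _ hxy => (p⁻¹).injective hxy)).subset ?_
    intro x hx
    simp only [Set.mem_preimage, Set.mem_ofPred_eq]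
    intro hc
    apply hx
    rw [eq_inv_mul_iff_mul_eq, ← hc]
    exact p.apply_symm_apply x

variable {F : Type} [Group F]

theorem ofSubtype_mem [DecidableEq F] (B : Finset F) (σ : Perm {x // x ∈ B}) :
    Perm.ofSubtype σ ∈ AlmostTrans F := by
  refine ⟨1, B.finite_toSet.subset ?_⟩
  intro x hx
  by_contra hc
  apply hx
  rw [one_mul]
  exact Perm.ofSubtype_apply_of_not_mem σ hc

/-- Left translation. -/
def Ltr (s : F) : Perm F := Equiv.mulLeft s

theorem Ltr_mem (s : F) : Ltr s ∈ AlmostTrans F := ⟨s, by simp [Ltr]⟩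

/-- `σ` after the left translation by `s`, as an element of the group. -/
def gam [DecidableEq F] (B : Finset F) (s : F) (σ : Perm {x // x ∈ B}) : AlmostTrans F :=
  ⟨Perm.ofSubtype σ, ofSubtype_mem B σ⟩ * ⟨Ltr s, Ltr_mem s⟩

theorem gam_smul [DecidableEq F] (B : Finset F) (s : F) (σ : Perm {x // x ∈ B}) (x : F) :
    gam B s σ • x = Perm.ofSubtype σ (s * x) := rfl

/-- Summing over the symmetric group of a finite set forgets the position. -/
theorem sum_perm_eq [DecidableEq F] {n : ℕ} (f : Set.powersetCard F n → ℝ) (B : Finset F) (s : F)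
    (y y' : Set.powersetCard F n) (hy : ∀ x ∈ (y : Finset F), s * x ∈ B)
    (hy' : ∀ x ∈ (y' : Finset F), s * x ∈ B) :
    ∑ σ : Perm {x // x ∈ B}, f (gam B s σ • y) = ∑ σ : Perm {x // x ∈ B}, f (gam B s σ • y') := by
  classical
  -- the two subsets of `B`
  let P : {x // x ∈ B} → Prop := fun x => s⁻¹ * x.1 ∈ (y : Finset F)
  let Q : {x // x ∈ B} → Prop := fun x => s⁻¹ * x.1 ∈ (y' : Finset F)
  have hcard : ∀ (z : Set.powersetCard F n), (∀ x ∈ (z : Finset F), s * x ∈ B) →
      Fintype.card {x : {x // x ∈ B} // s⁻¹ * x.1 ∈ (z : Finset F)} = n := by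
    intro z hz
    refine Eq.trans ?_ (Set.powersetCard.card_eq z)
    rw [← Fintype.card_coe]
    refine Fintype.card_congr
      { toFun := fun x => ⟨s⁻¹ * x.1.1, x.2⟩
        invFun := fun x => ⟨⟨s * x.1, hz _ x.2⟩, by simp⟩
        left_inv := fun x => by ext; simp
        right_inv := fun x => by ext; simp }
  have hc : Fintype.card {x // P x} = Fintype.card {x // Q x} :=
    (hcard y hy).trans (hcard y' hy').symm
  let e : {x // P x} ≃ {x // Q x} := Fintype.equivOfCardEq hc
  let τ : Perm {x // x ∈ B} := e.extendSubtype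
  have hτ : ∀ x, P x → Q (τ x) := fun x hx => Equiv.extendSubtype_mem e x hx
  have key : ∀ σ : Perm {x // x ∈ B}, gam B s (σ * τ) • y = gam B s σ • y' := by
    intro σ
    apply Subtype.ext
    have hinc : (gam B s (σ * τ) • (y : Finset F)) ⊆ gam B s σ • (y' : Finset F) := by
      intro z hz
      rw [Finset.mem_smul_finset] at hz ⊢
      obtain ⟨x, hx, rfl⟩ := hz
      have hxB : s * x ∈ B := hy x hx
      have hP : P ⟨s * x, hxB⟩ := by
        change s⁻¹ * (s * x) ∈ (y : Finset F)
        rwa [inv_mul_cancel_left]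
      refine ⟨s⁻¹ * (τ ⟨s * x, hxB⟩).1, hτ _ hP, ?_⟩
      rw [gam_smul, gam_smul, mul_inv_cancel_left, Perm.ofSubtype_apply_of_mem _ hxB,
        Perm.ofSubtype_apply_coe]
      rfl
    have h1 : ((gam B s (σ * τ) • y : Set.powersetCard F n) : Finset F) =
        gam B s (σ * τ) • (y : Finset F) := Set.powersetCard.coe_smul
    have h2 : ((gam B s σ • y' : Set.powersetCard F n) : Finset F) =
        gam B s σ • (y' : Finset F) := Set.powersetCard.coe_smul
    change ((gam B s (σ * τ) • y : Set.powersetCard F n) : Finset F) =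
      ((gam B s σ • y' : Set.powersetCard F n) : Finset F)
    rw [h1, h2]
    refine Finset.eq_of_subset_of_card_le hinc ?_
    rw [Finset.card_smul_finset, Finset.card_smul_finset, Set.powersetCard.card_eq, Set.powersetCard.card_eq]
  rw [← Equiv.sum_comp (Equiv.mulRight τ)]
  exact Finset.sum_congr rfl fun σ _ => by rw [Equiv.coe_mulRight, key]

end Pool.Agent.TH88.HT
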