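import Pool.Agent.TH88.HT.Liou

/-!
# Generation and non-amenability
-/

set_option autoImplicit false

namespace Pool.Agent.TH88.HT

open Finset Equiv Pointwise

/-- The free group of rank two. -/
abbrev F2 : Type := FreeGroup (Fin 2)

/-- The ball of radius one. -/
def S2 : Finset F2 :=
  {1, FreeGroup.of 0, FreeGroup.of 1, (FreeGroup.of 0)⁻¹, (FreeGroup.of 1)⁻¹}

theorem one_mem_S2 : (1 : F2) ∈ S2 := by simp [S2]

theorem inv_S2 : S2⁻¹ = S2 := by
  unfold S2
  ext x
  simp only [Finset.mem_inv, Finset.mem_insert, Finset.mem_singleton]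
  constructor
  · rintro ⟨y, hy, rfl⟩
    rcases hy with rfl | rfl | rfl | rfl | rfl <;> simp
  · intro h
    refine ⟨x⁻¹, ?_, inv_inv x⟩
    rcases h with rfl | rfl | rfl | rfl | rfl <;> simp

theorem S2_exhaust (x : F2) : ∃ i, x ∈ S2 ^ i := by
  induction x using FreeGroup.induction_on with
  | C1 => exact ⟨0, by simp⟩
  | of i =>
    refine ⟨1, ?_⟩
    rw [pow_one]
    fin_cases i <;> simp [S2]
  | inv_of i _ =>
    refine ⟨1, ?_⟩
    rw [pow_one]
    fin_cases i <;> simp [S2]
  | mul x y hx hy =>
    obtain ⟨i, hi⟩ := hx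
    obtain ⟨j, hj⟩ := hy
    refine ⟨i + j, ?_⟩
    rw [pow_add]
    exact Finset.mul_mem_mul hi hj

/-- Every permutation with finite support is one of the `gm`. -/
theorem finite_support_mem (q : Perm F2) (hq : {x | q x ≠ x}.Finite) :
    ∃ k : ℕ, ∃ σ : Perm {x // x ∈ Bal S2 k}, Perm.ofSubtype σ = q := by
  obtain ⟨k, hk⟩ : ∃ k : ℕ, ∀ x, q x ≠ x → x ∈ Bal S2 k := by
    have h1 : ∀ E : Finset F2, ∃ i, E ⊆ S2 ^ i := by
      intro E
      induction E using Finset.induction_on with
      | empty => exact ⟨0, Finset.empty_subset _⟩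
      | insert a E _ ih =>
        obtain ⟨i, hi⟩ := ih
        obtain ⟨j, hj⟩ := S2_exhaust a
        refine ⟨max i j, ?_⟩
        intro x hx
        rw [Finset.mem_insert] at hx
        rcases hx with rfl | hx
        · exact Finset.pow_subset_pow_right one_mem_S2 (le_max_right _ _) hj
        · exact Finset.pow_subset_pow_right one_mem_S2 (le_max_left _ _) (hi hx)
    obtain ⟨i, hi⟩ := h1 hq.toFinset
    refine ⟨i, fun x hx => ?_⟩
    exact Finset.pow_subset_pow_right one_mem_S2 (Nat.lt_pow_self (by norm_num)).le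
      (hi (by simpa using hx))
  refine ⟨k, Perm.subtypePerm q ?_, ?_⟩
  · intro x
    constructor
    · intro h
      by_contra hc
      have h2 : q x = x := by
        by_contra h3
        exact hc (hk x h3)
      rw [h2] at h
      exact hc h
    · intro h
      by_contra hc
      have h2 : q (q x) = q x := by
        by_contra h3
        exact hc (hk _ h3)
      have h4 := q.injective h2
      rw [h4] at hc
      exact hc h
  · exact Perm.ofSubtype_subtypePerm _ fun x hx => hk x hx

theorem gen_semigroup (g : AlmostTrans F2) :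
    g ∈ Subsemigroup.closure (Set.range (gm S2)) := by
  -- left translations
  have hL : ∀ i : ℕ, ∀ x ∈ S2 ^ (i + 1),
      (⟨Ltr x, Ltr_mem x⟩ : AlmostTrans F2) ∈ Subsemigroup.closure (Set.range (gm S2)) := by
    have h0 : ∀ x ∈ S2, (⟨Ltr x, Ltr_mem x⟩ : AlmostTrans F2) ∈
        Subsemigroup.closure (Set.range (gm S2)) := by
      intro x hx
      refine Subsemigroup.subset_closure ⟨⟨0, (⟨x, hx⟩, 1)⟩, ?_⟩
      apply Subtype.ext
      change Perm.ofSubtype (1 : Perm {x // x ∈ Bal S2 0}) * Ltr x = Ltr x
      rw [map_one, one_mul]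
    intro i
    induction i with
    | zero => simpa using h0
    | succ i ih =>
      intro x hx
      rw [pow_succ, Finset.mem_mul] at hx
      obtain ⟨y, hy, z, hz, rfl⟩ := hx
      have := Subsemigroup.mul_mem _ (ih y hy) (h0 z hz)
      convert this using 1
      apply Subtype.ext
      ext w
      simp [Ltr, mul_assoc]
  obtain ⟨p, h, hp⟩ := g
  have hfin : {x | (p * (Ltr h)⁻¹) x ≠ x}.Finite := by
    refine (hp.image (fun x => h * x)).subset ?_
    intro x hx
    refine ⟨h⁻¹ * x, ?_, mul_inv_cancel_left h x⟩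
    intro hc
    apply hx
    rw [Perm.mul_apply]
    change p (h⁻¹ * x) = x
    rw [hc, mul_inv_cancel_left]
  obtain ⟨k, σ, hσ⟩ := finite_support_mem _ hfin
  obtain ⟨i, hi⟩ := S2_exhaust h
  have hi' : h ∈ S2 ^ (i + 1) := Finset.pow_subset_pow_right one_mem_S2 (Nat.le_succ i) hi
  have h3 := Subsemigroup.mul_mem _
    (Subsemigroup.subset_closure (s := Set.range (gm S2)) ⟨⟨k, (⟨1, one_mem_S2⟩, σ)⟩, rfl⟩)
    (hL i h hi')
  convert h3 using 1
  apply Subtype.ext
  change p = (Perm.ofSubtype σ * Ltr 1) * Ltr h
  rw [hσ]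
  ext w
  simp [Ltr]

theorem Ltr_mul (g h : F2) : Ltr (g * h) = Ltr g * Ltr h := by
  ext w
  simp [Ltr, mul_assoc]

theorem closure_eq : Subgroup.closure ({Ltr (FreeGroup.of 0), Ltr (FreeGroup.of 1),
    swap 1 (FreeGroup.of 0), swap 1 (FreeGroup.of 1)} : Set (Perm F2)) = AlmostTrans F2 := by
  set T : Set (Perm F2) := {Ltr (FreeGroup.of 0), Ltr (FreeGroup.of 1),
    swap 1 (FreeGroup.of 0), swap 1 (FreeGroup.of 1)} with hT
  apply le_antisymm
  · rw [Subgroup.closure_le]
    have hsw : ∀ x y : F2, swap x y ∈ AlmostTrans F2 := by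
      intro x y
      refine ⟨1, (Set.toFinite ({x, y} : Set F2)).subset ?_⟩
      intro z hz
      by_contra hc
      simp only [Set.mem_insert_iff, Set.mem_singleton_iff, not_or] at hc
      exact hz (by rw [swap_apply_of_ne_of_ne hc.1 hc.2, one_mul])
    intro p hp
    simp only [hT, Set.mem_insert_iff, Set.mem_singleton_iff] at hp
    rcases hp with rfl | rfl | rfl | rfl
    · exact Ltr_mem _
    · exact Ltr_mem _
    · exact hsw _ _
    · exact hsw _ _
  · have hgen : ∀ i : Fin 2, Ltr (FreeGroup.of i) ∈ Subgroup.closure T ∧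
        swap 1 (FreeGroup.of i) ∈ Subgroup.closure T := by
      intro i
      constructor
      · apply Subgroup.subset_closure
        rw [hT]
        fin_cases i <;> simp
      · apply Subgroup.subset_closure
        rw [hT]
        fin_cases i <;> simp
    have hL : ∀ x : F2, Ltr x ∈ Subgroup.closure T := by
      intro x
      induction x using FreeGroup.induction_on with
      | C1 =>
        have : Ltr (1 : F2) = 1 := by ext w; simp [Ltr]
        rw [this]
        exact one_mem _
      | of i => exact (hgen i).1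
      | inv_of i _ =>
        have : Ltr ((FreeGroup.of i)⁻¹ : F2) = (Ltr (FreeGroup.of i))⁻¹ := by
          rw [eq_inv_iff_mul_eq_one, ← Ltr_mul, inv_mul_cancel]
          ext w; simp [Ltr]
        rw [this]
        exact inv_mem (hgen i).1
      | mul x y hx hy =>
        rw [Ltr_mul]
        exact mul_mem hx hy
    have hswap : ∀ (g : F2) (i : Fin 2), swap g (g * FreeGroup.of i) ∈ Subgroup.closure T := by
      intro g i
      have : swap g (g * FreeGroup.of i) = Ltr g * swap 1 (FreeGroup.of i) * (Ltr g)⁻¹ := by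
        have h1 := Equiv.mul_swap_eq_swap_mul (Ltr g) 1 (FreeGroup.of i)
        rw [h1, mul_inv_cancel_right]
        simp [Ltr]
      rw [this]
      exact mul_mem (mul_mem (hL g) (hgen i).2) (inv_mem (hL g))
    let U : Set (Perm F2) := {p | ∃ (g : F2) (i : Fin 2), p = swap g (g * FreeGroup.of i)}
    have hUT : Subgroup.closure U ≤ Subgroup.closure T := by
      rw [Subgroup.closure_le]
      rintro p ⟨g, i, rfl⟩
      exact hswap g i
    have hU : ∀ f ∈ U, f.IsSwap := by
      rintro f ⟨g, i, rfl⟩
      refine ⟨g, g * FreeGroup.of i, ?_, rfl⟩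
      intro h
      have h2 : FreeGroup.of i = (1 : F2) := mul_left_cancel (h.symm.trans (mul_one g).symm)
      exact FreeGroup.of_ne_one i h2
    have horb : ∀ x : F2, x ∈ MulAction.orbit (Subgroup.closure U) (1 : F2) := by
      have hstep : ∀ (g : F2) (i : Fin 2), MulAction.orbit (Subgroup.closure U) (g * FreeGroup.of i)
          = MulAction.orbit (Subgroup.closure U) g := by
        intro g i
        rw [MulAction.orbit_eq_iff]
        refine ⟨⟨swap g (g * FreeGroup.of i), Subgroup.subset_closure ⟨g, i, rfl⟩⟩, ?_⟩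
        exact swap_apply_left _ _
      have hall : ∀ y x : F2, MulAction.orbit (Subgroup.closure U) (x * y) =
          MulAction.orbit (Subgroup.closure U) x := by
        intro y
        induction y using FreeGroup.induction_on with
        | C1 => intro x; rw [mul_one]
        | of i => intro x; exact hstep x i
        | inv_of i _ =>
          intro x
          have := hstep (x * (FreeGroup.of i)⁻¹) i
          rw [inv_mul_cancel_right] at this
          exact this.symm
        | mul y z hy hz =>
          intro x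
          rw [← mul_assoc, hz, hy]
      intro x
      have := hall x 1
      rw [one_mul] at this
      rw [← this]
      exact MulAction.mem_orbit_self x
    rintro p ⟨h, hp⟩
    have h1 : p = Ltr h * ((Ltr h)⁻¹ * p) := by rw [mul_inv_cancel_left]
    rw [h1]
    refine mul_mem (hL h) (hUT ?_)
    rw [mem_closure_isSwap hU]
    constructor
    · refine hp.subset ?_
      intro x hx hc
      apply hx
      change (Ltr h)⁻¹ (p x) = x
      rw [hc]
      exact inv_mul_cancel_left h x
    · intro x
      have h2 := horb (((Ltr h)⁻¹ * p) x)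
      have h3 := horb x
      rw [← MulAction.orbit_eq_iff] at h2 h3
      rw [h3, ← h2]
      exact MulAction.mem_orbit_self _

theorem fg : Group.FG (AlmostTrans F2) := by
  rw [Group.fg_iff_subgroup_fg, Subgroup.fg_iff]
  exact ⟨_, closure_eq, Set.toFinite _⟩

/-! ## Non-amenability -/

/-- the words with a given first letter -/
def WW (i : Fin 2) (b : Bool) : Set F2 := {x | ∃ L, x.toWord = (i, b) :: L}

theorem WW_cover (i : Fin 2) (x : F2) :
    x ∈ WW i true ∨ (FreeGroup.of i)⁻¹ * x ∈ WW i false := by
  by_cases h : x ∈ WW i true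
  · exact Or.inl h
  · right
    have h1 : (FreeGroup.of i)⁻¹ * x = FreeGroup.mk ((i, false) :: x.toWord) := by
      conv_lhs => rw [← FreeGroup.mk_toWord (x := x)]
      rfl
    refine ⟨x.toWord, ?_⟩
    rw [h1, FreeGroup.toWord_mk, FreeGroup.reduce.cons, FreeGroup.reduce_toWord]
    rcases hx : x.toWord with _ | ⟨⟨j, c⟩, L⟩
    · rfl
    · change (if _ then _ else _) = _
      rw [if_neg]
      rintro ⟨h2, h3⟩
      apply h
      refine ⟨L, ?_⟩
      rw [hx]
      simp only at h2 h3
      cases c
      · simp at h3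
      · rw [h2]

theorem WW_disj {i j : Fin 2} {b c : Bool} (h : (i, b) ≠ (j, c)) : Disjoint (WW i b) (WW j c) := by
  rw [Set.disjoint_left]
  rintro x ⟨L, hL⟩ ⟨M, hM⟩
  rw [hL] at hM
  exact h (List.cons.inj hM).1

/-- There is no invariant mean on a group mapping onto the free group. -/
theorem not_amenable {G : Type} [Group G] (q : G →* F2) (hq : Function.Surjective q)
    (m : Set G → ℝ) (h0 : ∀ A, 0 ≤ m A) (h1 : m Set.univ = 1)
    (h2 : ∀ A B, Disjoint A B → m (A ∪ B) = m A + m B)
    (h3 : ∀ (g : G) (A : Set G), m ((fun x => g * x) '' A) = m A) : False := by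
  have hmono : ∀ A B : Set G, A ⊆ B → m A ≤ m B := by
    intro A B hAB
    have := h2 A (B \ A) Set.disjoint_sdiff_right
    rw [Set.union_sdiff_cancel hAB] at this
    have := h0 (B \ A)
    linarith
  have hsub : ∀ A B : Set G, m (A ∪ B) ≤ m A + m B := by
    intro A B
    have h4 := h2 A (B \ A) Set.disjoint_sdiff_right
    rw [Set.union_sdiff_self] at h4
    have := hmono (B \ A) B Set.sdiff_subset
    linarith
  let V : Fin 2 → Bool → Set G := fun i b => q ⁻¹' (WW i b)
  have hcov : ∀ i, 1 ≤ m (V i true) + m (V i false) := by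
    intro i
    obtain ⟨g, hg⟩ := hq (FreeGroup.of i)
    have h4 : (Set.univ : Set G) = V i true ∪ (fun x => g * x) '' V i false := by
      symm
      rw [Set.eq_univ_iff_forall]
      intro x
      rcases WW_cover i (q x) with h | h
      · exact Or.inl h
      · right
        refine ⟨g⁻¹ * x, ?_, mul_inv_cancel_left g x⟩
        change q (g⁻¹ * x) ∈ WW i false
        rw [map_mul, map_inv, hg]
        exact h
    have h5 := hsub (V i true) ((fun x => g * x) '' V i false)
    rw [← h4, h1, h3] at h5
    exact h5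
  have hd : ∀ i j b c, (i, b) ≠ (j, c) → Disjoint (V i b) (V j c) := by
    intro i j b c h
    exact (WW_disj h).preimage q
  have e1 := h2 (V 0 true) (V 0 false) (hd _ _ _ _ (by decide))
  have e2 := h2 (V 1 true) (V 1 false) (hd _ _ _ _ (by decide))
  have e3 := h2 (V 0 true ∪ V 0 false) (V 1 true ∪ V 1 false) (by
    rw [Set.disjoint_union_left]
    constructor
    · rw [Set.disjoint_union_right]
      exact ⟨hd _ _ _ _ (by decide), hd _ _ _ _ (by decide)⟩
    · rw [Set.disjoint_union_right]
      exact ⟨hd _ _ _ _ (by decide), hd _ _ _ _ (by decide)⟩)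
  have e4 := hmono ((V 0 true ∪ V 0 false) ∪ (V 1 true ∪ V 1 false)) Set.univ
    (Set.subset_univ _)
  have e5 := hcov 0
  have e6 := hcov 1
  linarith

theorem trans_unique {p : Perm F2} {h k : F2} (hh : {x | p x ≠ h * x}.Finite)
    (hk : {x | p x ≠ k * x}.Finite) : h = k := by
  have hu : ({x | p x ≠ h * x} ∪ {x | p x ≠ k * x}).Finite := hh.union hk
  have hne : ({x | p x ≠ h * x} ∪ {x | p x ≠ k * x})ᶜ.Nonempty := hu.infinite_compl.nonempty
  obtain ⟨x, hx⟩ := hne
  simp only [Set.mem_compl_iff, Set.mem_union, Set.mem_ofPred_eq, not_or, not_not] at hx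
  exact mul_right_cancel (hx.1.symm.trans hx.2)

/-- The translation part. -/
noncomputable def qq : AlmostTrans F2 →* F2 where
  toFun p := p.2.choose
  map_one' := by
    refine trans_unique (1 : AlmostTrans F2).2.choose_spec ?_
    simp
  map_mul' := by
    intro p p'
    refine trans_unique (p * p').2.choose_spec ?_
    have hp := p.2.choose_spec
    have hp' := p'.2.choose_spec
    refine (hp'.union (hp.preimage (f := fun x => p'.2.choose * x)
      (fun x _ y _ hxy => mul_left_cancel hxy))).subset ?_
    intro x hx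
    by_contra hc
    simp only [Set.mem_union, Set.mem_preimage, Set.mem_ofPred_eq, not_or, not_not] at hc
    apply hx
    rw [Subgroup.coe_mul, Perm.mul_apply, hc.1, hc.2, mul_assoc]

theorem qq_surj : Function.Surjective qq := by
  intro h
  refine ⟨⟨Ltr h, Ltr_mem h⟩, ?_⟩
  refine trans_unique (⟨Ltr h, Ltr_mem h⟩ : AlmostTrans F2).2.choose_spec ?_
  simp [Ltr]

end Pool.Agent.TH88.HT
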