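import Pool.Agent.TH88.HT.Act

/-!
# Bounded harmonic functions on the finite subsets are constant
-/

set_option autoImplicit false

namespace Pool.Agent.TH88.HT

open Finset Equiv Pointwise

variable {F : Type} [Group F] [DecidableEq F] (S : Finset F)

/-- The ball of radius `6 ^ k`. -/
def Bal (k : ℕ) : Finset F := S ^ (6 ^ k)

/-- Index type of the `k`-th part. -/
abbrev Idk (k : ℕ) : Type := {s // s ∈ S} × Perm {x // x ∈ Bal S k}

/-- Index type. -/
abbrev Idx : Type := Σ k : ℕ, Idk S k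

/-- The weights. -/
noncomputable def wt (i : Idx S) : ℝ := (1 / 2 : ℝ) ^ (i.1 + 1) / Fintype.card (Idk S i.1)

/-- The group elements. -/
def gm (i : Idx S) : AlmostTrans F := gam (Bal S i.1) i.2.1.1 i.2.2

/-- The averages. -/
noncomputable def Av {n : ℕ} (f : Set.powersetCard F n → ℝ) (k : ℕ) (y : Set.powersetCard F n) :
    ℝ := (∑ i : Idk S k, f (gam (Bal S k) i.1.1 i.2 • y)) / Fintype.card (Idk S k)

variable (h1 : (1 : F) ∈ S)

include h1 in
theorem card_pos (k : ℕ) : (0 : ℝ) < Fintype.card (Idk S k) := by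
  have : Nonempty (Idk S k) := ⟨(⟨1, h1⟩, 1)⟩
  exact_mod_cast Fintype.card_pos

include h1 in
theorem wt_pos (i : Idx S) : 0 < wt S i := by
  unfold wt
  have := card_pos S h1 i.1
  positivity

include h1 in
theorem wt_sum : HasSum (wt S) 1 := by
  have hg : HasSum (fun k : ℕ => (1 / 2 : ℝ) ^ (k + 1)) 1 := by
    have := (hasSum_geometric_two).mul_left (1 / 2 : ℝ)
    norm_num at this
    refine this.congr_fun ?_ |> fun h => h
    intro k
    rw [pow_succ]
    ring
  have hin : ∀ k : ℕ, HasSum (fun j : Idk S k => wt S ⟨k, j⟩) ((1 / 2 : ℝ) ^ (k + 1)) := by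
    intro k
    have := hasSum_fintype (fun j : Idk S k => wt S ⟨k, j⟩)
    have h0 : ∀ j : Idk S k, wt S ⟨k, j⟩ = (1 / 2 : ℝ) ^ (k + 1) / Fintype.card (Idk S k) :=
      fun j => rfl
    rw [Finset.sum_congr rfl fun j _ => h0 j, Finset.sum_const, Finset.card_univ, nsmul_eq_mul,
      mul_div_cancel₀ _ (card_pos S h1 k).ne'] at this
    exact this
  have hs : Summable (wt S) := by
    rw [summable_sigma_of_nonneg fun i => (wt_pos S h1 i).le]
    refine ⟨fun k => (hin k).summable, ?_⟩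
    refine hg.summable.congr fun k => ?_
    rw [(hin k).tsum_eq]
  have h2 := hs.hasSum.sigma hin
  have h3 := hs.hasSum
  rwa [h2.unique hg] at h3

include h1 in
theorem Av_sum {n : ℕ} (f : Set.powersetCard F n → ℝ) (C : ℝ) (hC : ∀ y, |f y| ≤ C)
    (y : Set.powersetCard F n) :
    HasSum (fun k => (1 / 2 : ℝ) ^ (k + 1) * Av S f k y) (∑' i, wt S i * f (gm S i • y)) := by
  have hs : Summable (fun i => wt S i * f (gm S i • y)) := by
    refine Summable.of_norm_bounded (g := fun a => wt S a * C)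
      ((wt_sum S h1).summable.mul_right C) ?_
    intro a
    rw [Real.norm_eq_abs, abs_mul, abs_of_pos (wt_pos S h1 a)]
    exact mul_le_mul_of_nonneg_left (hC _) (wt_pos S h1 a).le
  refine hs.hasSum.sigma fun k => ?_
  have := hasSum_fintype (fun j : Idk S k => wt S ⟨k, j⟩ * f (gm S ⟨k, j⟩ • y))
  have h0 : ∀ j : Idk S k, wt S ⟨k, j⟩ * f (gm S ⟨k, j⟩ • y) =
      (1 / 2 : ℝ) ^ (k + 1) / Fintype.card (Idk S k) * f (gam (Bal S k) j.1.1 j.2 • y) :=
    fun j => rfl
  rw [Finset.sum_congr rfl fun j _ => h0 j, ← Finset.mul_sum] at this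
  have h4 : (1 / 2 : ℝ) ^ (k + 1) * Av S f k y = (1 / 2 : ℝ) ^ (k + 1) / Fintype.card (Idk S k) *
      ∑ j : Idk S k, f (gam (Bal S k) j.1.1 j.2 • y) := by
    unfold Av
    ring
  rw [h4]
  exact this

/-- the weights of the first `k` parts -/
theorem geom_part (k : ℕ) : ∑ i ∈ Finset.range k, (1 / 2 : ℝ) ^ (i + 1) = 1 - (1 / 2) ^ k := by
  induction k with
  | zero => simp
  | succ k ih => rw [Finset.sum_range_succ, ih, pow_succ]; ring

include h1 in
/-- For large `k` the averages do not depend on the set. -/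
theorem Av_eq {n : ℕ} (f : Set.powersetCard F n → ℝ) (k m : ℕ) (hm : m + 1 ≤ 6 ^ k)
    (y y' : Set.powersetCard F n) (hy : (y : Finset F) ⊆ S ^ m) (hy' : (y' : Finset F) ⊆ S ^ m) :
    Av S f k y = Av S f k y' := by
  have hsub : ∀ s ∈ S, ∀ x ∈ S ^ m, s * x ∈ Bal S k := by
    intro s hs x hx
    have h2 : s * x ∈ S ^ (m + 1) := by
      rw [pow_succ']
      exact Finset.mul_mem_mul hs hx
    exact Finset.pow_subset_pow_right h1 hm h2
  unfold Av
  congr 1
  rw [Fintype.sum_prod_type, Fintype.sum_prod_type]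
  refine Finset.sum_congr rfl fun s _ => ?_
  exact sum_perm_eq f (Bal S k) s.1 y y' (fun x hx => hsub _ s.2 _ (hy hx))
    fun x hx => hsub _ s.2 _ (hy' hx)

include h1 in
/-- For small `k` the averages stay close. -/
theorem Av_close {n : ℕ} (f : Set.powersetCard F n → ℝ) (k m : ℕ) (hm : 6 ^ k ≤ m + 1) (D : ℝ)
    (hD : ∀ z z' : Set.powersetCard F n, (z : Finset F) ⊆ S ^ (m + 1) →
      (z' : Finset F) ⊆ S ^ (m + 1) → |f z - f z'| ≤ D)
    (y y' : Set.powersetCard F n) (hy : (y : Finset F) ⊆ S ^ m) (hy' : (y' : Finset F) ⊆ S ^ m) :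
    |Av S f k y - Av S f k y'| ≤ D := by
  have hsub : ∀ (j : Idk S k) (z : Set.powersetCard F n), (z : Finset F) ⊆ S ^ m →
      ((gam (Bal S k) j.1.1 j.2 • z : Set.powersetCard F n) : Finset F) ⊆ S ^ (m + 1) := by
    intro j z hz x hx
    have hco : ((gam (Bal S k) j.1.1 j.2 • z : Set.powersetCard F n) : Finset F) =
        gam (Bal S k) j.1.1 j.2 • (z : Finset F) := Set.powersetCard.coe_smul
    rw [hco, Finset.mem_smul_finset] at hx
    obtain ⟨a, ha, rfl⟩ := hx
    have h2 : j.1.1 * a ∈ S ^ (m + 1) := by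
      rw [pow_succ']
      exact Finset.mul_mem_mul j.1.2 (hz ha)
    rw [gam_smul]
    by_cases hB : j.1.1 * a ∈ Bal S k
    · rw [Perm.ofSubtype_apply_of_mem _ hB]
      exact Finset.pow_subset_pow_right h1 hm (j.2 ⟨j.1.1 * a, hB⟩).2
    · rw [Perm.ofSubtype_apply_of_not_mem _ hB]
      exact h2
  have hc := card_pos S h1 k
  unfold Av
  rw [← sub_div, ← Finset.sum_sub_distrib, abs_div, abs_of_pos hc, div_le_iff₀ hc]
  refine (Finset.abs_sum_le_sum_abs _ _).trans ?_
  refine (Finset.sum_le_sum fun j _ => hD _ _ (hsub j y hy) (hsub j y' hy')).trans ?_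
  rw [Finset.sum_const, Finset.card_univ, nsmul_eq_mul, mul_comm]

include h1 in
theorem main_step {n : ℕ} (f : Set.powersetCard F n → ℝ) (C : ℝ) (hC : ∀ y, |f y| ≤ C)
    (hf : ∀ y, f y = ∑' i, wt S i * f (gm S i • y)) (k : ℕ) :
    ∀ r j : ℕ, j + r ≤ 4 ^ (k + 1) → ∀ y y' : Set.powersetCard F n,
      (y : Finset F) ⊆ S ^ (6 ^ k + j) → (y' : Finset F) ⊆ S ^ (6 ^ k + j) →
      |f y - f y'| ≤ 2 * C * (1 - (1 / 2 : ℝ) ^ (k + 1)) ^ r := by
  intro r
  induction r with
  | zero =>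
    intro j _ y y' _ _
    have h2 := abs_sub (f y) (f y')
    have h3 := hC y
    have h4 := hC y'
    rw [pow_zero]
    linarith
  | succ r ih =>
    intro j hj y y' hy hy'
    have hs := (Av_sum S h1 f C hC y).sub (Av_sum S h1 f C hC y')
    rw [← hf y, ← hf y'] at hs
    have hzero : ∀ i ∉ Finset.range (k + 1),
        (1 / 2 : ℝ) ^ (i + 1) * Av S f i y - (1 / 2 : ℝ) ^ (i + 1) * Av S f i y' = 0 := by
      intro i hi
      rw [Finset.mem_range, not_lt] at hi
      rw [Av_eq S h1 f i (6 ^ k + j) ?_ y y' hy hy', sub_self]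
      have h2 : 6 ^ (k + 1) ≤ 6 ^ i := Nat.pow_le_pow_right (by norm_num) hi
      have h3 : 4 ^ k ≤ 6 ^ k := Nat.pow_le_pow_left (by norm_num) k
      have h4 : 6 ^ (k + 1) = 6 * 6 ^ k := by ring
      have h5 : 4 ^ (k + 1) = 4 * 4 ^ k := by ring
      omega
    have h2 : f y - f y' = ∑ i ∈ Finset.range (k + 1),
        ((1 / 2 : ℝ) ^ (i + 1) * Av S f i y - (1 / 2 : ℝ) ^ (i + 1) * Av S f i y') :=
      hs.unique (hasSum_sum_of_ne_finset_zero hzero)
    rw [h2]
    refine (Finset.abs_sum_le_sum_abs _ _).trans ?_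
    have h3 : ∀ i ∈ Finset.range (k + 1),
        |(1 / 2 : ℝ) ^ (i + 1) * Av S f i y - (1 / 2 : ℝ) ^ (i + 1) * Av S f i y'| ≤
          (1 / 2 : ℝ) ^ (i + 1) * (2 * C * (1 - (1 / 2 : ℝ) ^ (k + 1)) ^ r) := by
      intro i hi
      rw [Finset.mem_range] at hi
      rw [← mul_sub, abs_mul, abs_of_pos (by positivity : (0 : ℝ) < (1 / 2) ^ (i + 1))]
      refine mul_le_mul_of_nonneg_left ?_ (by positivity)
      refine Av_close S h1 f i (6 ^ k + j) ?_ _ ?_ y y' hy hy'
      · have h4 : 6 ^ i ≤ 6 ^ k := Nat.pow_le_pow_right (by norm_num) (by omega)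
        omega
      · intro z z' hz hz'
        exact ih (j + 1) (by omega) z z' (by rwa [← add_assoc]) (by rwa [← add_assoc])
    refine (Finset.sum_le_sum h3).trans ?_
    rw [← Finset.sum_mul, geom_part, pow_succ]
    apply le_of_eq
    ring

include h1 in
/-- Bounded harmonic functions on the `n`-element subsets are constant. -/
theorem liouville (hS : ∀ x : F, ∃ i, x ∈ S ^ i) {n : ℕ} (f : Set.powersetCard F n → ℝ) (C : ℝ)
    (hC : ∀ y, |f y| ≤ C) (hf : ∀ y, f y = ∑' i, wt S i * f (gm S i • y))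
    (y y' : Set.powersetCard F n) : f y = f y' := by
  have hC0 : 0 ≤ C := (abs_nonneg _).trans (hC y)
  -- a common ball
  have hfin : ∀ E : Finset F, ∃ i, E ⊆ S ^ i := by
    intro E
    induction E using Finset.induction_on with
    | empty => exact ⟨0, Finset.empty_subset _⟩
    | insert a E _ ih =>
      obtain ⟨i, hi⟩ := ih
      obtain ⟨j, hj⟩ := hS a
      refine ⟨max i j, ?_⟩
      intro x hx
      rw [Finset.mem_insert] at hx
      rcases hx with rfl | hx
      · exact Finset.pow_subset_pow_right h1 (le_max_right _ _) hj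
      · exact Finset.pow_subset_pow_right h1 (le_max_left _ _) (hi hx)
  obtain ⟨i, hi⟩ := hfin ((y : Finset F) ∪ (y' : Finset F))
  have hbound : ∀ k : ℕ, i ≤ k → |f y - f y'| ≤ 2 * C * (1 / 2) ^ (k + 1) := by
    intro k hk
    have hk2 : i ≤ 6 ^ k := hk.trans (Nat.lt_pow_self (by norm_num)).le
    have h2 : S ^ i ⊆ S ^ (6 ^ k + 0) := Finset.pow_subset_pow_right h1 (by omega)
    have h3 := main_step S h1 f C hC hf k (4 ^ (k + 1)) 0 (by omega) y y'
      ((Finset.subset_union_left.trans hi).trans h2)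
      ((Finset.subset_union_right.trans hi).trans h2)
    refine h3.trans (mul_le_mul_of_nonneg_left ?_ (by positivity))
    -- Bernoulli
    set x : ℝ := (1 / 2) ^ (k + 1) with hx
    have hx0 : 0 < x := by positivity
    have hx1 : x ≤ 1 := pow_le_one₀ (by norm_num) (by norm_num)
    have hb := one_add_mul_le_pow (a := x) (by linarith) (4 ^ (k + 1))
    have hprod : (1 - x) ^ (4 ^ (k + 1)) * (1 + x) ^ (4 ^ (k + 1)) ≤ 1 := by
      rw [← mul_pow]
      refine pow_le_one₀ ?_ ?_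
      · exact mul_nonneg (by linarith) (by linarith)
      · nlinarith
    have hN : ((4 ^ (k + 1) : ℕ) : ℝ) * x = 1 / x := by
      rw [eq_div_iff hx0.ne', hx]
      push_cast
      rw [mul_assoc, ← mul_pow, ← mul_pow]
      norm_num
    have h5 : 1 / x ≤ (1 + x) ^ (4 ^ (k + 1)) := by
      rw [← hN]
      linarith
    have h6 : 0 ≤ (1 - x) ^ (4 ^ (k + 1)) := pow_nonneg (by linarith) _
    have h7 : (1 - x) ^ (4 ^ (k + 1)) * (1 / x) ≤ 1 :=
      (mul_le_mul_of_nonneg_left h5 h6).trans hprod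
    rw [mul_one_div, div_le_one hx0] at h7
    exact h7
  by_contra hne
  have hpos : 0 < |f y - f y'| := abs_pos.2 (sub_ne_zero.2 hne)
  have ht : Filter.Tendsto (fun k : ℕ => 2 * C * (1 / 2 : ℝ) ^ (k + 1)) Filter.atTop
      (nhds (2 * C * 0)) := by
    refine Filter.Tendsto.const_mul _ ?_
    exact (tendsto_pow_atTop_nhds_zero_of_lt_one (by norm_num) (by norm_num)).comp
      (Filter.tendsto_add_atTop_nat 1)
  rw [mul_zero] at ht
  obtain ⟨k, hk1, hk2⟩ := ((ht.eventually (gt_mem_nhds hpos)).and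
    (Filter.eventually_ge_atTop i)).exists
  exact absurd (hbound k hk2) (not_le.2 hk1)

end Pool.Agent.TH88.HT
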