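import Mathlib

/-!
# Push forward of weights along maps
-/

set_option autoImplicit false

namespace Pool.Agent.TH88.HT

open Finset

open Classical in
/-- The image of the weights `w` under `φ`. -/
noncomputable def push {A B : Type*} (φ : A → B) (w : A → ℝ) (b : B) : ℝ :=
  ∑' a, if φ a = b then w a else 0

/-- Summation over fibres. -/
theorem hasSum_push {A B : Type*} (φ : A → B) (w : A → ℝ) (hw : Summable w)
    (hw0 : ∀ a, 0 ≤ w a) (u : B → ℝ) (C : ℝ) (hu : ∀ b, |u b| ≤ C) :
    HasSum (fun b => u b * push φ w b) (∑' a, w a * u (φ a)) := by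
  classical
  have hs : Summable (fun a => w a * u (φ a)) := by
    refine Summable.of_norm_bounded (g := fun a => w a * C) (hw.mul_right C) ?_
    intro a
    rw [Real.norm_eq_abs, abs_mul, abs_of_nonneg (hw0 a)]
    exact mul_le_mul_of_nonneg_left (hu _) (hw0 a)
  have h1 : HasSum (fun x : (Σ b, {a // φ a = b}) => w x.2 * u (φ x.2))
      (∑' a, w a * u (φ a)) := by
    have := hs.hasSum
    exact ((Equiv.sigmaFiberEquiv φ).hasSum_iff (f := fun a => w a * u (φ a))).2 this
  have h2 : ∀ b, HasSum (fun x : {a // φ a = b} => w x * u (φ x))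
      (u b * push φ w b) := by
    intro b
    have h3 : (fun x : {a // φ a = b} => w x * u (φ x)) =
        fun x : {a // φ a = b} => u b * w x := by
      funext x
      rw [x.2, mul_comm]
    rw [h3]
    refine HasSum.mul_left _ ?_
    have h4 : push φ w b = ∑' x : {a // φ a = b}, w x := by
      unfold push
      have := tsum_subtype {a | φ a = b} w
      rw [show (∑' x : {a // φ a = b}, w x) = ∑' x : ({a | φ a = b} : Set A), w x from rfl, this]
      refine tsum_congr fun a => ?_
      by_cases h : φ a = b
      · simp [h]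
      · simp [h]
    rw [h4]
    exact (hw.subtype {a | φ a = b}).hasSum
  exact h1.sigma h2

theorem push_nonneg {A B : Type*} (φ : A → B) (w : A → ℝ) (hw0 : ∀ a, 0 ≤ w a) (b : B) :
    0 ≤ push φ w b := by
  classical
  unfold push
  refine tsum_nonneg fun a => ?_
  split_ifs
  · exact hw0 a
  · exact le_rfl

theorem push_pos {A B : Type*} (φ : A → B) (w : A → ℝ) (hw : Summable w)
    (hw0 : ∀ a, 0 ≤ w a) (a : A) (ha : 0 < w a) :
    0 < push φ w (φ a) := by
  classical
  unfold push
  have hs : Summable (fun a' => if φ a' = φ a then w a' else 0) := by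
    refine Summable.of_nonneg_of_le (fun a' => ?_) (fun a' => ?_) hw
    · split_ifs
      · exact hw0 a'
      · exact le_rfl
    · split_ifs
      · exact le_rfl
      · exact hw0 a'
  have h := hs.le_tsum a (fun a' _ => by
    split_ifs
    · exact hw0 a'
    · exact le_rfl)
  simp only [if_true] at h
  exact lt_of_lt_of_le ha h

theorem hasSum_push_one {A B : Type*} (φ : A → B) (w : A → ℝ) (hw : HasSum w 1)
    (hw0 : ∀ a, 0 ≤ w a) :
    HasSum (push φ w) 1 := by
  have := hasSum_push φ w hw.summable hw0 (fun _ => 1) 1 (fun _ => by simp)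
  simpa [hw.tsum_eq] using this

end Pool.Agent.TH88.HT
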